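import Mathlib
import Pool.Agent.T2h34.CP.Any

/-!
# A cartesian product with a graph with a cycle raises the dimension of rigidity by one

Let `d ≥ 2` and let `H` be a finite graph with `n` vertices which is generically rigid in the
dimension below, `ℝ^(d-1)`. If `H` has at least `(d - 1) n` independent edges in `ℝ^d` (its generic
rank in `ℝ^d` is at least `(d - 1) n`), then the cartesian product `G □ H` is generically rigid in
`ℝ^d` for all connected graphs `G` which are not trees. The bound on the rank is also necessary as
soon as `G` is a long cycle. So for such `H` and long cycles `G`, the rigidity of `G □ H` in `ℝ^d` is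
decided by one number, the generic rank of `H` in `ℝ^d`.

The proof: `G` is contracted to a triangle by frameworks with sliders; `H` is replaced by a
subgraph with exactly `(d - 1) n` independent edges, which is still rigid in `ℝ^(d-1)`; then a
placement of `K₃ □ H` with its three layers in three hyperplanes (two of them parallel) is
perturbed. The reduced system is full because of a dichotomy for a linear map attached to the
first layer: either it is injective or it is surjective.
-/

set_option autoImplicit false

namespace Pool.Agent.Results.MP_37c7bf_co.ProductRaisesDimension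

open Pool.Agent.H283R2.DR Pool.Agent.H789R5 Pool.Agent.T2h34.CP

/-- (1) Let `d ≥ 2` and let `H` be a finite graph with `n` vertices which is generically rigid in
`ℝ^(d-1)` and has generic rank at least `(d - 1) n` in `ℝ^d`. Then `G □ H` is generically rigid in
`ℝ^d` for every connected finite graph `G` which is not a tree.

(2) Let `d ≥ 2`, let `H` be a finite graph with `n` vertices which is generically rigid in
`ℝ^(d-1)`, and let `G` be a connected graph with as many edges as vertices and more than
`d (d + 1) / 2` vertices, for example a cycle. Then `G □ H` is generically rigid in `ℝ^d` if and only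
if the generic rank of `H` in `ℝ^d` is at least `(d - 1) n`.

(3) For all finite graphs `G` and `H`, if `G □ H` is generically rigid in `ℝ^d` and has at least `d`
vertices, then `d |V(G)| |V(H)| ≤ |E(G)| |V(H)| + |V(G)| r_d(H) + d (d + 1) / 2`, where `r_d` is the
generic rank in `ℝ^d`. -/
theorem result :
    (∀ d : ℕ, 2 ≤ d → ∀ (Y : Type) [Fintype Y] (H : SimpleGraph Y), GenRigid (d - 1) H →
      (d - 1) * Fintype.card Y ≤ genRank d H →
      ∀ (V : Type) [Fintype V] (G : SimpleGraph V), G.Connected → ¬ G.IsAcyclic →
      GenRigid d (G □ H)) ∧
    (∀ d : ℕ, 2 ≤ d → ∀ (Y : Type) [Fintype Y] (H : SimpleGraph Y), GenRigid (d - 1) H →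
      ∀ (V : Type) [Fintype V] (G : SimpleGraph V), G.Connected →
      G.edgeSet.ncard = Fintype.card V → d * (d + 1) / 2 < Fintype.card V →
      (GenRigid d (G □ H) ↔ (d - 1) * Fintype.card Y ≤ genRank d H)) ∧
    (∀ (d : ℕ) (V Y : Type) [Fintype V] [Fintype Y] (G : SimpleGraph V) (H : SimpleGraph Y),
      GenRigid d (G □ H) → d ≤ Fintype.card (V × Y) →
      d * (Fintype.card V * Fintype.card Y) ≤
        G.edgeSet.ncard * Fintype.card Y + Fintype.card V * genRank d H + d * (d + 1) / 2) := by
  refine ⟨?_, ?_, fun d V Y _ _ G H h hc => gen_count h hc⟩
  · intro d hd Y _ H hH hr V _ G hG hA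
    obtain ⟨m, rfl⟩ := Nat.exists_eq_add_of_le' hd
    exact gen_suff hH hr hG hA
  · intro d hd Y _ H hH V _ G hG hE hV
    obtain ⟨m, rfl⟩ := Nat.exists_eq_add_of_le' hd
    exact gen_iff hH hG hE hV

end Pool.Agent.Results.MP_37c7bf_co.ProductRaisesDimension
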