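import Mathlib
import Pool.Agent.T2h34.Circ.Turner

/-!
# The generic rank of vertex-transitive graphs of prime order, in all dimensions

The vertex-transitive graphs with a prime number `n` of vertices are the circulants on `n` points
(Turner). Such a graph is generically rigid in `ℝ^d` as soon as its degree is at least `2 d`, for
every `d` and every odd prime `n`, and for `n > d (d + 1) / 2` only then. If `n ≥ d² - d + 1`, its
generic rank in `ℝ^d` is `min (|E|, d n - d (d + 1) / 2)`, i.e. it is rigid or has independent
edges. For `d = 3`: a vertex-transitive graph with a prime number `n ≥ 7` of vertices has generic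
rank `min (|E|, 3 n - 6)` and is generically rigid if and only if its degree is at least six.

The proof works modulo the prime `n`. For the placement `g ↦ (g, g², …, g^d)` of `ℤ/n` the leading
coefficients of the infinitesimal motions (polynomials of degree less than `n`) satisfy linear
equations which leave exactly the trivial motions. For independence in dimension `k + 1` of the
graphs of degree `2 k`, one shows that the matrix of each stress of the moment curve in dimension `k`
has small nullity modulo `n`; by counting there is a further coordinate without any stress.
-/

set_option autoImplicit false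

namespace Pool.Agent.Results.MP_37c7bf_co.VertexTransitivePrimeOrder

open Pool.Agent.H283R2.DR Pool.Agent.H789R5

/-- Let `G` be a vertex-transitive graph whose number `n` of vertices is an odd prime.

(1) For every `d`: if the degree of `G` is at least `2 d`, then `G` is generically rigid in `ℝ^d`.

(2) For every `d` with `d (d + 1) / 2 < n`: `G` is generically rigid in `ℝ^d` if and only if its
degree is at least `2 d`.

(3) For every `d ≥ 1` with `d² - d + 1 ≤ n`: the generic rank of `G` in `ℝ^d` is the minimum of the
number of its edges and `d n - d (d + 1) / 2`. -/
theorem result (V : Type) [Fintype V] (G : SimpleGraph V) [DecidableRel G.Adj]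
    (hp : (Fintype.card V).Prime) (hp2 : Fintype.card V ≠ 2)
    (hG : ∀ u v : V, ∃ φ : G ≃g G, φ u = v) :
    (∀ d : ℕ, (∀ v, 2 * d ≤ G.degree v) → GenRigid d G) ∧
    (∀ d : ℕ, d * (d + 1) / 2 < Fintype.card V → (GenRigid d G ↔ ∀ v, 2 * d ≤ G.degree v)) ∧
    (∀ d : ℕ, 1 ≤ d → d * d + 1 ≤ Fintype.card V + d →
      genRank d G = min G.edgeSet.ncard (d * Fintype.card V - d * (d + 1) / 2)) := by
  classical
  exact Pool.Agent.T2h34.Circ.main G hp hp2 hG

end Pool.Agent.Results.MP_37c7bf_co.VertexTransitivePrimeOrder
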